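import Pool.Agent.D0H72.AP.Final

/-!
MP_cbfcf7_gt, Q1: the Milnor-Wood inequality for all area preserving actions of surface groups on
the plane by orientation preserving homeomorphisms.

The proof shows that every area preserving and orientation preserving homeomorphism of the plane
is a limit, uniform on compact sets, of area preserving diffeomorphisms (this is
`Pool.Agent.D0H72.AP.limit`), and then uses the inequality for the limits of area preserving
diffeomorphisms, `Pool.Agent.Results.MP_cbfcf7_gt.MilnorWood.result`.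
-/

set_option autoImplicit false

open Filter Topology

namespace Pool.Agent.Results.MP_cbfcf7_gt.VolumePreserving

open Pool.Agent.Helper11.PlaneEuler
open Pool.Agent.Results.MP_cbfcf7_gt.MilnorWood (UniformLimit)
open Pool.Agent.D0H72.AP (OP)
open Pool.Agent.Helper984_CP (LogDiff kneser conjC toC)

/-- `f` preserves orientation: the image under `f` of the unit circle `θ ↦ exp (i θ)` winds
exactly once, in the positive sense, around the point `f 0` -/
def OrientationPreserving (f : ℂ ≃ₜ ℂ) : Prop :=
  ∃ φ : ℝ → ℝ, Continuous φ ∧ (∀ θ : ℝ, φ (θ + 2 * Real.pi) = φ θ + 2 * Real.pi) ∧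
    ∀ θ : ℝ, f (Complex.exp (θ * Complex.I)) - f 0 =
      (‖f (Complex.exp (θ * Complex.I)) - f 0‖ : ℂ) * Complex.exp (φ θ * Complex.I)

theorem OrientationPreserving.op {f : ℂ ≃ₜ ℂ} (hf : OrientationPreserving f) : OP f := by
  obtain ⟨φ, hφ1, hφ2, hφ3⟩ := hf
  rcases kneser (h := toC f) ⟨toC f.symm, fun x => f.apply_symm_apply x,
    fun x => f.symm_apply_apply x⟩ with h | h
  · exact OP.of_isoId h
  · exfalso
    obtain ⟨ℓ, hℓ⟩ := h.exists_logDiff
    -- the pair of the point `exp (-iθ)` and the origin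
    obtain ⟨P, hP, hP1, hP2⟩ : ∃ P : ℝ → Pool.Agent.Helper984_CP.Conf, Continuous P ∧
        (∀ θ, (P θ).1.1 = Complex.exp (-(θ * Complex.I))) ∧ ∀ θ, (P θ).1.2 = 0 := by
      refine ⟨fun θ => ⟨(Complex.exp (-(θ * Complex.I)), 0), Complex.exp_ne_zero _⟩, ?_,
        fun θ => rfl, fun θ => rfl⟩
      fun_prop
    have key : ∀ θ : ℝ, Complex.exp ((((ℓ (P θ)).im - θ - φ θ : ℝ) : ℂ) * Complex.I) = 1 := by
      intro θ
      have h1 := hℓ (P θ)
      simp only [ContinuousMap.comp_apply, Pool.Agent.Helper984_CP.conjC_apply, hP1, hP2,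
        sub_zero, map_zero] at h1
      have h2 : (starRingEnd ℂ) (Complex.exp (-(θ * Complex.I))) =
          Complex.exp (θ * Complex.I) := by
        rw [← Complex.exp_conj]
        simp
      rw [h2] at h1
      change _ = f (Complex.exp (θ * Complex.I)) - f 0 at h1
      rw [hφ3 θ] at h1
      obtain ⟨R, hR⟩ : ∃ R : ℝ, R = ‖f (Complex.exp (θ * Complex.I)) - f 0‖ := ⟨_, rfl⟩
      rw [← hR] at h1
      have hR0 : 0 < R := by
        rw [hR, norm_pos_iff, sub_ne_zero]
        exact fun h => Complex.exp_ne_zero _ (f.injective h)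
      have h3 := congrArg norm h1
      rw [norm_mul, norm_mul, Complex.norm_exp, Complex.norm_exp, Complex.norm_real,
        Real.norm_of_nonneg hR0.le, Complex.norm_exp_ofReal_mul_I] at h3
      have h4 : Real.exp (ℓ (P θ)).re = R := by
        simpa using h3
      have h5 : Complex.exp (ℓ (P θ)) = (R : ℂ) * Complex.exp (((ℓ (P θ)).im : ℂ) * Complex.I) := by
        rw [← h4, Complex.ofReal_exp, ← Complex.exp_add, Complex.re_add_im]
      rw [h5, mul_assoc] at h1
      have h6 := mul_left_cancel₀ (by exact_mod_cast hR0.ne') h1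
      rw [← Complex.exp_add] at h6
      have h7 : (((ℓ (P θ)).im - θ - φ θ : ℝ) : ℂ) * Complex.I =
          (((ℓ (P θ)).im : ℂ) * Complex.I + -(θ * Complex.I)) - φ θ * Complex.I := by
        push_cast
        ring
      rw [h7, Complex.exp_sub, h6, div_self (Complex.exp_ne_zero _)]
    have hG : Continuous fun θ : ℝ => (ℓ (P θ)).im - θ - φ θ := by
      have := Complex.continuous_im
      fun_prop
    have hconst : ∀ θ : ℝ, (ℓ (P θ)).im - θ - φ θ = (ℓ (P 0)).im - 0 - φ 0 := by
      have hint : ∀ θ : ℝ, ∃ k : ℤ, ((ℓ (P θ)).im - θ - φ θ) / (2 * Real.pi) = k := by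
        intro θ
        obtain ⟨k, hk⟩ := Complex.exp_eq_one_iff.1 (key θ)
        refine ⟨k, ?_⟩
        have h1 : (((ℓ (P θ)).im - θ - φ θ : ℝ) : ℂ) = ((k * (2 * Real.pi) : ℝ) : ℂ) := by
          apply mul_right_cancel₀ Complex.I_ne_zero
          rw [hk]
          push_cast
          ring
        have h2 : (ℓ (P θ)).im - θ - φ θ = k * (2 * Real.pi) := by exact_mod_cast h1
        rw [h2, mul_div_cancel_right₀ _ (by positivity)]
      choose k hk using hint
      have hkc : Continuous k := by
        have h1 : Continuous fun θ : ℝ => ((k θ : ℤ) : ℝ) := by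
          have h2 : (fun θ : ℝ => ((k θ : ℤ) : ℝ)) =
              fun θ : ℝ => ((ℓ (P θ)).im - θ - φ θ) / (2 * Real.pi) := by
            funext θ
            rw [hk]
          rw [h2]
          exact hG.div_const _
        exact Int.isClosedEmbedding_coe_real.isInducing.continuous_iff.2 h1
      intro θ
      have h1 : k θ = k 0 := PreconnectedSpace.constant inferInstance hkc
      have h2 := hk θ
      have h3 := hk 0
      rw [h1, ← h3] at h2
      exact (div_left_inj' (by positivity)).1 h2
    have h1 := hconst (2 * Real.pi)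
    have h2 : P (2 * Real.pi) = P 0 := by
      apply Subtype.ext
      apply Prod.ext
      · rw [hP1, hP1]
        simp only [Complex.ofReal_mul, Complex.ofReal_ofNat, Complex.ofReal_zero, zero_mul,
          neg_zero, Complex.exp_zero]
        rw [Complex.exp_neg, Complex.exp_two_pi_mul_I, inv_one]
      · rw [hP2, hP2]
    have h3 := hφ2 0
    rw [zero_add] at h3
    rw [h2, h3] at h1
    linarith [Real.pi_pos]

/-- The Milnor-Wood inequality for area preserving actions of surface groups on the plane. -/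
theorem result (g : ℕ) (hg : 1 ≤ g) (ρ : SurfaceGroup g →* (ℂ ≃ₜ ℂ))
    (hρ : ∀ γ : SurfaceGroup g,
      MeasureTheory.MeasurePreserving (⇑(ρ γ)) ∧ OrientationPreserving (ρ γ)) :
    ∃ n : ℤ, (∀ m : ℤ, HasEulerNumber ρ m ↔ m = n) ∧ |n| ≤ 2 * (g : ℤ) - 2 :=
  (Pool.Agent.Results.MP_cbfcf7_gt.MilnorWood.result g hg ρ).1 fun _ =>
    Pool.Agent.D0H72.AP.limit (hρ _).1 (hρ _).2.op

end Pool.Agent.Results.MP_cbfcf7_gt.VolumePreserving
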